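import Pool.Agent.Helper73.HV.Stmts

/-!
# Rows B and C of the project MP_a2630c_HV: Legendre duality, gauge and support function
-/

open MeasureTheory Set Metric Real
open scoped RealInnerProductSpace ENNReal Topology
open Pool.Agent.Helper16.Buoy (E)

open Pool.Agent.Helper73.HV

namespace Pool.Agent.Helper29.HV

/-! ## B. Legendre duality -/

theorem dual_lo : S_dual_lo := by
  intro n Ψ Φ hY hA M hM hΦ x z
  obtain ⟨ξ, hξ⟩ := hA x
  have h1 := hY (x + z) (ξ + M⁻¹ • z)
  have h2 := hY (x - z) (ξ - M⁻¹ • z)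
  have h3 := hΦ ξ (M⁻¹ • z)
  simp only [sd, inner_add_left, inner_add_right, inner_sub_left, inner_sub_right,
    real_inner_smul_right, real_inner_self_eq_norm_sq, norm_smul] at h1 h2 h3 ⊢
  have h4 : M * (‖M⁻¹‖ * ‖z‖) ^ 2 = M⁻¹ * ‖z‖ ^ 2 := by
    rw [Real.norm_of_nonneg (inv_pos.mpr hM).le, mul_pow]
    field_simp
  rw [h4] at h3
  linarith

theorem dual_up : S_dual_up := by
  intro n Ψ Φ hY hA M hM hΦ x z
  obtain ⟨ξ, hξ⟩ := hA (x + z)
  obtain ⟨η, hη⟩ := hA (x - z)
  have h1 := hY x ((1 / 2 : ℝ) • (ξ + η))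
  have h3 := hΦ ((1 / 2 : ℝ) • (ξ + η)) ((1 / 2 : ℝ) • (ξ - η))
  have e1 : (1 / 2 : ℝ) • (ξ + η) + (1 / 2 : ℝ) • (ξ - η) = ξ := by module
  have e2 : (1 / 2 : ℝ) • (ξ + η) - (1 / 2 : ℝ) • (ξ - η) = η := by module
  unfold sd at h3 ⊢
  rw [e1, e2] at h3
  have h5 : 0 ≤ ‖z - M • (1 / 2 : ℝ) • (ξ - η)‖ ^ 2 := sq_nonneg _
  rw [norm_sub_sq_real, norm_smul, real_inner_smul_right, real_inner_smul_right,
    inner_sub_right, Real.norm_of_nonneg hM.le] at h5
  simp only [inner_add_left, inner_sub_left, real_inner_smul_right, inner_add_right] at hξ hη h1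
  have h6 : M⁻¹ * (‖z‖ ^ 2 - 2 * (M * (1 / 2 * (inner ℝ z ξ - inner ℝ z η)))
      + (M * ‖(1 / 2 : ℝ) • (ξ - η)‖) ^ 2) = M⁻¹ * ‖z‖ ^ 2 - (inner ℝ z ξ - inner ℝ z η)
      + M * ‖(1 / 2 : ℝ) • (ξ - η)‖ ^ 2 := by
    field_simp
  have h7 : 0 ≤ M⁻¹ * (‖z‖ ^ 2 - 2 * (M * (1 / 2 * (inner ℝ z ξ - inner ℝ z η)))
      + (M * ‖(1 / 2 : ℝ) • (ξ - η)‖) ^ 2) := mul_nonneg (inv_pos.mpr hM).le h5
  rw [h6] at h7
  linarith

/-! ## C. Gauge and support function -/

section

variable {n : ℕ} {K : Set (E n)}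

theorem sb_nhds (hK : SBody K) : K ∈ 𝓝 (0 : E n) := by
  obtain ⟨y, hy⟩ := hK.int
  have hy' : -y ∈ interior K := by
    have h1 : -interior K ⊆ K := by
      intro z hz
      have := hK.symm _ (interior_subset (Set.mem_neg.mp hz))
      simpa using this
    have h2 : IsOpen (-interior K) := isOpen_interior.neg
    exact (interior_maximal h1 h2) (by simpa using hy)
  have h3 : (1 / 2 : ℝ) • y + (1 / 2 : ℝ) • (-y) ∈ interior K :=
    hK.conv.interior hy hy' (by norm_num) (by norm_num) (by norm_num)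
  have h4 : (1 / 2 : ℝ) • y + (1 / 2 : ℝ) • (-y) = 0 := by module
  rw [h4] at h3
  exact mem_interior_iff_mem_nhds.mp h3

theorem sb_zero_mem (hK : SBody K) : (0 : E n) ∈ K := mem_of_mem_nhds (sb_nhds hK)

theorem sb_gauge_le_one (hK : SBody K) {x : E n} : gauge K x ≤ 1 ↔ x ∈ K := by
  rw [gauge_le_one_iff_mem_closure hK.conv (sb_nhds hK), hK.comp.isClosed.closure_eq]

theorem sb_bdd (hK : SBody K) (ξ : E n) : BddAbove ((fun x => inner ℝ ξ x) '' K) :=
  (hK.comp.image (by fun_prop)).bddAbove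

theorem sb_balls (hK : SBody K) : ∃ r R : ℝ, 0 < r ∧ 0 < R ∧ closedBall 0 r ⊆ K ∧
    K ⊆ closedBall 0 R := by
  obtain ⟨r, hr, h⟩ := Metric.nhds_basis_closedBall.mem_iff.mp (sb_nhds hK)
  obtain ⟨R, hR, h'⟩ := hK.comp.isBounded.subset_closedBall_lt 0 0
  exact ⟨r, R, hr, hR, h, h'⟩

theorem sb_gauge_le (hK : SBody K) {r : ℝ} (hr : 0 < r) (h : closedBall 0 r ⊆ K) (x : E n) :
    gauge K x ≤ ‖x‖ / r := by
  have := gauge_mono (absorbent_nhds_zero (closedBall_mem_nhds (0 : E n) hr)) h x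
  rwa [gauge_closedBall hr.le] at this

theorem sb_le_gauge (hK : SBody K) {R : ℝ} (hR : 0 < R) (h : K ⊆ closedBall 0 R) (x : E n) :
    ‖x‖ / R ≤ gauge K x := by
  have := gauge_mono (absorbent_nhds_zero (sb_nhds hK)) h x
  rwa [gauge_closedBall hR.le] at this

theorem sb_gauge_pos (hK : SBody K) {x : E n} (hx : x ≠ 0) : 0 < gauge K x := by
  obtain ⟨r, R, hr, hR, h1, h2⟩ := (sb_balls hK)
  exact lt_of_lt_of_le (by positivity) ((sb_le_gauge hK) hR h2 x)

/-- The boundary point `x / gauge x`. -/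
theorem sb_gauge_inv (hK : SBody K) {x : E n} (hx : x ≠ 0) : gauge K ((gauge K x)⁻¹ • x) = 1 := by
  have hg := (sb_gauge_pos hK) hx
  rw [gauge_smul_of_nonneg (inv_pos.mpr hg).le, smul_eq_mul]
  field_simp

theorem sb_inner_le (hK : SBody K) (x ξ : E n) : inner ℝ x ξ ≤ gauge K x * supp K ξ := by
  by_cases hx : x = 0
  · subst hx; simp
  · have hg := (sb_gauge_pos hK) hx
    have h1 : (gauge K x)⁻¹ • x ∈ K := (sb_gauge_le_one hK).mp (sb_gauge_inv hK hx).le
    have h2 : inner ℝ ξ ((gauge K x)⁻¹ • x) ≤ supp K ξ := le_csSup (sb_bdd hK ξ) ⟨_, h1, rfl⟩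
    rw [real_inner_smul_right, real_inner_comm] at h2
    calc inner ℝ x ξ = gauge K x * ((gauge K x)⁻¹ * inner ℝ x ξ) := by field_simp
      _ ≤ _ := by gcongr

end

theorem young : S_young := by
  intro n K hK x ξ
  have h := (sb_inner_le hK) x ξ
  unfold gau
  nlinarith [sq_nonneg (gauge K x - supp K ξ)]

theorem young_att : S_young_att := by
  intro n K hK x
  by_cases hx : x = 0
  · subst hx
    refine ⟨0, ?_⟩
    have h1 : supp K (0 : E n) = 0 := by
      unfold supp
      simp only [inner_zero_left]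
      rw [Set.Nonempty.image_const ⟨0, (sb_zero_mem hK)⟩, csSup_singleton]
    simp [gau, h1]
  · have hg := (sb_gauge_pos hK) hx
    set g := gauge K x with hgdef
    set y := g⁻¹ • x with hy
    have hy1 : gauge K y = 1 := (sb_gauge_inv hK) hx
    have hyK : y ∈ K := (sb_gauge_le_one hK).mp hy1.le
    have hyi : y ∉ interior K := by
      rw [← gauge_lt_one_iff_mem_interior hK.conv (sb_nhds hK)]
      rw [hy1]; exact lt_irrefl _
    obtain ⟨f, hf⟩ := geometric_hahn_banach_open_point hK.conv.interior isOpen_interior hyi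
    have hf' : ∀ a ∈ K, f a ≤ f y := by
      intro a ha
      have h1 : a ∈ closure (interior K) := by
        rw [hK.conv.closure_interior_eq_closure_of_nonempty_interior hK.int]
        exact subset_closure ha
      exact closure_minimal (fun z hz => (hf z hz).le) (isClosed_le f.continuous continuous_const) h1
    have hs : 0 < f y := by
      have := hf 0 (mem_interior_iff_mem_nhds.mpr (sb_nhds hK))
      simpa using this
    set ζ := (InnerProductSpace.toDual ℝ (E n)).symm f with hζ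
    have hin : ∀ a, inner ℝ ζ a = f a := fun a => InnerProductSpace.toDual_symm_apply
    refine ⟨(g / f y) • ζ, ?_⟩
    have hsup : supp K ((g / f y) • ζ) = g := by
      apply le_antisymm
      · apply csSup_le (Set.Nonempty.image _ ⟨0, (sb_zero_mem hK)⟩)
        rintro _ ⟨a, ha, rfl⟩
        simp only [real_inner_smul_left, hin]
        calc g / f y * f a ≤ g / f y * f y := by gcongr; exact hf' a ha
          _ = g := by field_simp
      · refine le_csSup (sb_bdd hK _) ⟨y, hyK, ?_⟩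
        simp only [real_inner_smul_left, hin]
        field_simp
    rw [hsup, real_inner_smul_right, real_inner_comm, hin, gau, ← hgdef]
    have hxy : f x = g * f y := by
      rw [hy, map_smul, smul_eq_mul]
      field_simp
    rw [hxy]
    field_simp
    ring

theorem wt_gau : S_wt_gau := by
  intro n K hK
  obtain ⟨r, R, hr, hR, h1, h2⟩ := (sb_balls hK)
  refine ⟨1 / (2 * R ^ 2), 1 / (2 * r ^ 2), ?_, ?_, by positivity, ?_, ?_⟩
  · have := continuous_gauge hK.conv (sb_nhds hK)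
    unfold gau
    fun_prop
  · intro x
    unfold gau
    rw [gauge_neg hK.symm]
  · intro x
    have h := (sb_le_gauge hK) hR h2 x
    have h' : (‖x‖ / R) ^ 2 ≤ gauge K x ^ 2 := pow_le_pow_left₀ (by positivity) h 2
    unfold gau
    calc 1 / (2 * R ^ 2) * ‖x‖ ^ 2 = (‖x‖ / R) ^ 2 / 2 := by field_simp
      _ ≤ _ := by linarith
  · intro x
    have h := (sb_gauge_le hK) hr h1 x
    have h' : gauge K x ^ 2 ≤ (‖x‖ / r) ^ 2 := pow_le_pow_left₀ (gauge_nonneg x) h 2
    unfold gau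
    calc gauge K x ^ 2 / 2 ≤ (‖x‖ / r) ^ 2 / 2 := by linarith
      _ = _ := by field_simp

end Pool.Agent.Helper29.HV
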