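import Pool.Agent.Helper29.HV.BC
import Pool.Agent.Helper73.HV.Base

/-!
# Row H of the project MP_a2630c_HV: from `K` to the weight
-/

open MeasureTheory Set Metric Real
open scoped RealInnerProductSpace ENNReal Topology Pointwise
open Pool.Agent.Helper16.Buoy (E)
open Pool.Agent.Helper73.HV

namespace Pool.Agent.Helper29.HV

section

variable {n : ℕ} {K : Set (E n)}

/-- `{gauge ≤ r} = r K`. -/
theorem gauge_le_eq (hK : SBody K) {r : ℝ} (hr : 0 < r) : {x | gauge K x ≤ r} = r • K := by
  ext x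
  rw [mem_ofPred_eq, mem_smul_set_iff_inv_smul_mem₀ hr.ne', ← sb_gauge_le_one hK,
    gauge_smul_of_nonneg (inv_pos.mpr hr).le, smul_eq_mul, inv_mul_le_iff₀ hr, mul_one]

theorem exp_gauge (g : ℝ) : ∫⁻ r in Ioi g, ENNReal.ofReal (r * exp (-r ^ 2 / 2)) =
    if 0 ≤ g then ENNReal.ofReal (exp (-g ^ 2 / 2)) else
      ∫⁻ r in Ioi g, ENNReal.ofReal (r * exp (-r ^ 2 / 2)) := by
  split_ifs with hg
  · have hd : ∀ x ∈ Ici g, HasDerivAt (fun r => -exp (-r ^ 2 / 2)) (x * exp (-x ^ 2 / 2)) x := by
      intro x _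
      have h1 : HasDerivAt (fun r : ℝ => -r ^ 2 / 2) (-x) x := by
        have h0 := (((hasDerivAt_id x).mul (hasDerivAt_id x)).neg.div_const 2)
        refine (h0.congr_deriv ?_).congr_of_eventuallyEq (Filter.Eventually.of_forall fun r => ?_)
        · simp only [id]; ring
        · change -r ^ 2 / 2 = -(r * r) / 2
          ring
      exact h1.exp.neg.congr_deriv (by ring)
    have hp : ∀ x ∈ Ioi g, 0 ≤ x * exp (-x ^ 2 / 2) := by
      intro x hx
      have : 0 ≤ x := hg.trans (le_of_lt hx)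
      positivity
    have ht : Filter.Tendsto (fun r : ℝ => -exp (-r ^ 2 / 2)) Filter.atTop (𝓝 (-0)) := by
      apply Filter.Tendsto.neg
      apply Real.tendsto_exp_atBot.comp
      apply Filter.Tendsto.atBot_div_const (by norm_num)
      exact Filter.tendsto_neg_atTop_atBot.comp (Filter.tendsto_pow_atTop (by norm_num))
    have hi := integrableOn_Ioi_deriv_of_nonneg' hd hp ht
    rw [← ofReal_integral_eq_lintegral_ofReal hi
      ((ae_restrict_iff' measurableSet_Ioi).mpr (Filter.Eventually.of_forall hp)),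
      integral_Ioi_of_hasDerivAt_of_nonneg' hd hp ht]
    congr 1
    ring
  · rfl

/-- The constant. -/
noncomputable def cst (m : ℕ) : ℝ := ∫ r in Ioi (0 : ℝ), r ^ m * (r * exp (-r ^ 2 / 2))

theorem cst_integrable (m : ℕ) :
    IntegrableOn (fun r : ℝ => r ^ m * (r * exp (-r ^ 2 / 2))) (Ioi 0) := by
  have h := (integrable_rpow_mul_exp_neg_mul_sq (b := 1 / 2) (by norm_num) (s := ((m + 1 : ℕ) : ℝ))
    (by have : (0 : ℝ) ≤ ((m + 1 : ℕ) : ℝ) := Nat.cast_nonneg _
        linarith)).integrableOn (s := Ioi (0 : ℝ))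
  refine h.congr_fun (fun x _ => ?_) measurableSet_Ioi
  simp only [Real.rpow_natCast]
  rw [show -(1 / 2 : ℝ) * x ^ 2 = -x ^ 2 / 2 by ring]
  ring

theorem cst_pos (m : ℕ) : 0 < cst m := by
  unfold cst
  rw [setIntegral_pos_iff_support_of_nonneg_ae _ (cst_integrable m)]
  · have : (Function.support fun r : ℝ => r ^ m * (r * exp (-r ^ 2 / 2))) ∩ Ioi 0 = Ioi 0 := by
      apply inter_eq_right.mpr
      intro x hx
      have hx' : (0 : ℝ) < x := hx
      rw [Function.mem_support]
      positivity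
    rw [this]
    simp
  · exact (ae_restrict_iff' measurableSet_Ioi).mpr (Filter.Eventually.of_forall fun x hx => by
      have hx' : (0 : ℝ) < x := hx
      simp only [Pi.zero_apply]
      positivity)

/-- Scaling of the integral over `r K`. -/
theorem lintegral_smul (hK : SBody K) {φ : E n → ℝ} (hφ : Continuous φ) (hφ0 : ∀ x, 0 ≤ φ x) {p : ℕ}
    (hh : ∀ (r : ℝ) (x : E n), 0 < r → φ (r • x) = r ^ p * φ x) {r : ℝ} (hr : 0 < r) :
    ∫⁻ x in {x | gauge K x ≤ r}, ENNReal.ofReal (φ x) =
      ENNReal.ofReal (r ^ (n + p)) * ENNReal.ofReal (∫ x in K, φ x) := by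
  rw [gauge_le_eq hK hr]
  have hc : IsCompact (r • K) := hK.comp.smul r
  rw [← ofReal_integral_eq_lintegral_ofReal (hφ.continuousOn.integrableOn_compact hc)
    (Filter.Eventually.of_forall hφ0), ← ENNReal.ofReal_mul (by positivity)]
  congr 1
  have h := Measure.setIntegral_comp_smul_of_pos (μ := (volume : Measure (E n))) φ K hr
  have h2 : ∫ x in K, φ (r • x) = r ^ p * ∫ x in K, φ x := by
    rw [← integral_const_mul]
    exact integral_congr_ae (Filter.Eventually.of_forall fun x => hh r x hr)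
  rw [h2] at h
  simp only [finrank_euclideanSpace, Fintype.card_fin, smul_eq_mul] at h
  rw [pow_add, mul_assoc, h]
  field_simp

theorem main_lintegral (hK : SBody K) {φ : E n → ℝ} (hφ : Continuous φ) (hφ0 : ∀ x, 0 ≤ φ x) {p : ℕ}
    (hh : ∀ (r : ℝ) (x : E n), 0 < r → φ (r • x) = r ^ p * φ x) :
    ∫⁻ x, ENNReal.ofReal (φ x * exp (-gau K x)) =
      ENNReal.ofReal (cst (n + p) * ∫ x in K, φ x) := by
  have hgc : Continuous (gauge K) := continuous_gauge hK.conv (sb_nhds hK)
  have e1 : ∀ x, ENNReal.ofReal (φ x * exp (-gau K x)) =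
      ∫⁻ r in Ioi (0 : ℝ), ({y : E n | gauge K y ≤ r}.indicator (fun y => ENNReal.ofReal (φ y)) x) *
        ENNReal.ofReal (r * exp (-r ^ 2 / 2)) := by
    intro x
    rw [ENNReal.ofReal_mul (hφ0 x)]
    have h1 := exp_gauge (gauge K x)
    rw [if_pos (gauge_nonneg x)] at h1
    have h2 : -gau K x = -(gauge K x) ^ 2 / 2 := by unfold gau; ring
    rw [h2, ← h1, ← lintegral_const_mul _ (by fun_prop)]
    have h3 : ∫⁻ r in Ioi (gauge K x), ENNReal.ofReal (φ x) * ENNReal.ofReal (r * exp (-r ^ 2 / 2))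
        = ∫⁻ r in Ici (gauge K x), ENNReal.ofReal (φ x) * ENNReal.ofReal (r * exp (-r ^ 2 / 2)) :=
      setLIntegral_congr Ioi_ae_eq_Ici
    rw [h3]
    have h4 : ∫⁻ r in Ioi (0 : ℝ), ({y : E n | gauge K y ≤ r}.indicator
        (fun y => ENNReal.ofReal (φ y)) x) * ENNReal.ofReal (r * exp (-r ^ 2 / 2))
        = ∫⁻ r in Ioi (0 : ℝ), (Ici (gauge K x)).indicator
          (fun r => ENNReal.ofReal (φ x) * ENNReal.ofReal (r * exp (-r ^ 2 / 2))) r := by
      apply lintegral_congr
      intro r
      by_cases hr : gauge K x ≤ r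
      · rw [indicator_of_mem (show x ∈ {y : E n | gauge K y ≤ r} from hr),
          indicator_of_mem (show r ∈ Ici (gauge K x) from hr)]
      · rw [indicator_of_notMem (show x ∉ {y : E n | gauge K y ≤ r} from hr),
          indicator_of_notMem (show r ∉ Ici (gauge K x) from hr), zero_mul]
    rw [h4, setLIntegral_indicator measurableSet_Ici]
    rcases (gauge_nonneg (s := K) x).eq_or_lt with h0 | h0
    · rw [← h0]
      have : Ici (0 : ℝ) ∩ Ioi 0 = Ioi 0 := inter_eq_right.mpr Ioi_subset_Ici_self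
      rw [this]
      exact (setLIntegral_congr Ioi_ae_eq_Ici).symm
    · have : Ici (gauge K x) ∩ Ioi 0 = Ici (gauge K x) :=
        inter_eq_left.mpr fun y hy => lt_of_lt_of_le h0 hy
      rw [this]
  simp_rw [e1]
  rw [lintegral_lintegral_swap]
  · have e2 : ∀ r ∈ Ioi (0 : ℝ), ∫⁻ x, ({y : E n | gauge K y ≤ r}.indicator
        (fun y => ENNReal.ofReal (φ y)) x) * ENNReal.ofReal (r * exp (-r ^ 2 / 2))
        = ENNReal.ofReal (r ^ (n + p) * (r * exp (-r ^ 2 / 2))) * ENNReal.ofReal (∫ x in K, φ x) := by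
      intro r hr
      have hr' : (0 : ℝ) < r := hr
      rw [lintegral_mul_const _ ((by fun_prop : Measurable fun y => ENNReal.ofReal (φ y)).indicator
        (measurableSet_le hgc.measurable measurable_const)),
        lintegral_indicator (measurableSet_le hgc.measurable measurable_const),
        lintegral_smul hK hφ hφ0 hh hr', ENNReal.ofReal_mul (p := r ^ (n + p)) (by positivity)]
      ring
    rw [setLIntegral_congr_fun measurableSet_Ioi e2, lintegral_mul_const _ (by fun_prop),
      ← ofReal_integral_eq_lintegral_ofReal (cst_integrable (n + p)), ← ENNReal.ofReal_mul]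
    · rfl
    · exact (cst_pos (n + p)).le
    · exact (ae_restrict_iff' measurableSet_Ioi).mpr (Filter.Eventually.of_forall fun x hx => by
        have hx' : (0 : ℝ) < x := hx
        simp only [Pi.zero_apply]
        positivity)
  · apply Measurable.aemeasurable
    have hm : MeasurableSet {q : E n × ℝ | gauge K q.1 ≤ q.2} :=
      measurableSet_le (hgc.measurable.comp measurable_fst) measurable_snd
    have : (Function.uncurry fun (x : E n) (r : ℝ) => ({y : E n | gauge K y ≤ r}.indicator
        (fun y => ENNReal.ofReal (φ y)) x) * ENNReal.ofReal (r * exp (-r ^ 2 / 2))) =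
        fun q : E n × ℝ => ({q : E n × ℝ | gauge K q.1 ≤ q.2}.indicator
          (fun q => ENNReal.ofReal (φ q.1)) q) * ENNReal.ofReal (q.2 * exp (-q.2 ^ 2 / 2)) := by
      ext ⟨x, r⟩
      rfl
    rw [this]
    exact ((by fun_prop : Measurable fun q : E n × ℝ => ENNReal.ofReal (φ q.1)).indicator hm).mul
      (by fun_prop)

theorem main_integral (hK : SBody K) {φ : E n → ℝ} (hφ : Continuous φ) (hφ0 : ∀ x, 0 ≤ φ x) {p : ℕ}
    (hh : ∀ (r : ℝ) (x : E n), 0 < r → φ (r • x) = r ^ p * φ x) :
    ∫ x, φ x * exp (-gau K x) = cst (n + p) * ∫ x in K, φ x := by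
  have hgc : Continuous (gauge K) := continuous_gauge hK.conv (sb_nhds hK)
  rw [integral_eq_lintegral_of_nonneg_ae
    (Filter.Eventually.of_forall fun x => mul_nonneg (hφ0 x) (exp_pos _).le)
    (by unfold gau; fun_prop), main_lintegral hK hφ hφ0 hh, ENNReal.toReal_ofReal]
  exact mul_nonneg (cst_pos _).le (setIntegral_nonneg_of_ae (Filter.Eventually.of_forall hφ0))

end

theorem conv_one : S_conv_one := by
  intro n K hK
  refine ⟨cst (n + 1), cst_pos _, fun u => ?_⟩
  unfold FF
  exact main_integral hK (by fun_prop) (fun x => abs_nonneg _) (fun r x hr => by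
    rw [real_inner_smul_right, abs_mul, abs_of_pos hr, pow_one])

theorem conv_two : S_conv_two := by
  intro n K hK
  refine ⟨cst (n + 2), cst_pos _, fun u => ?_⟩
  exact main_integral hK (by fun_prop) (fun x => sq_nonneg _) (fun r x hr => by
    rw [real_inner_smul_right]; ring)

end Pool.Agent.Helper29.HV
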